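import Pool.Agent.Helper55.SP.Psi
import Pool.Agent.Helper5.SP.SecondDiff

/-!
Project SP, module SP-07 (helper83): the bound with three coordinates.
-/

set_option autoImplicit false

open MeasureTheory Set Real Slab

namespace Pool.Agent.Helper89.SP

theorem T3_master {t p q r : ℝ} {l : List ℝ} (hc : Crit t p (q :: r :: l))
    (hr : 0 < r) (hrq : r ≤ q) (hqp : q ≤ p) (hpq : p + q ≤ t) (h1 : t * p ≤ 1) :
    8 * (q * r) * T (p :: q :: r :: l) t ≤
      (1 - t * p) * Psi l (p + q + r - t) + (3 * (t * p) - 1) * Psi l (-(t + p - q - r)) +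
        (1 - t * p) * Psi l (-(t - p + q + r)) := by
  have hq : 0 < q := lt_of_lt_of_le hr hrq
  have hp : 0 < p := lt_of_lt_of_le hq hqp
  have ht : 0 < t := by linarith
  have htp : 0 < t * p := mul_pos ht hp
  have hA := second_difference l hq hr (t - p)
  have hB := second_difference l hq hr (t + p)
  unfold Crit at hc
  have e1 : q + r - (t - p) = p + q + r - t := by ring
  have e2 : -q - r - (t - p) = -(t - p + q + r) := by ring
  have e3 : q + r - (t + p) = -(t + p - q - r) := by ring
  rw [e1, e2] at hA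
  rw [e3] at hB
  have m1 : Psi l (-(t + p - q - r)) ≤ Psi l (q - r - (t - p)) := Psi_mono l (by linarith)
  have m2 : Psi l (-(t + p - q - r)) ≤ Psi l (r - q - (t - p)) := Psi_mono l (by linarith)
  have m3 : Psi l (-q - r - (t + p)) ≤ Psi l (q - r - (t + p)) := Psi_mono l (by linarith)
  have m4 : 0 ≤ Psi l (r - q - (t + p)) := Psi_nonneg l _
  have hPA : 8 * (q * r) * P (q :: r :: l) (t - p) ≤
      Psi l (p + q + r - t) - 2 * Psi l (-(t + p - q - r)) + Psi l (-(t - p + q + r)) := by
    rw [hA]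
    linarith
  have hPB : 8 * (q * r) * P (q :: r :: l) (t + p) ≤ Psi l (-(t + p - q - r)) := by
    rw [hB]
    linarith
  have hA' := mul_le_mul_of_nonneg_left hPA (show (0 : ℝ) ≤ 1 - t * p by linarith)
  have hB' := mul_le_mul_of_nonneg_left hPB (show (0 : ℝ) ≤ 1 + t * p by linarith)
  rw [hc]
  calc 8 * (q * r) * ((1 - t * p) * P (q :: r :: l) (t - p) +
        (1 + t * p) * P (q :: r :: l) (t + p))
      = (1 - t * p) * (8 * (q * r) * P (q :: r :: l) (t - p)) +
        (1 + t * p) * (8 * (q * r) * P (q :: r :: l) (t + p)) := by ring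
    _ ≤ (1 - t * p) * (Psi l (p + q + r - t) - 2 * Psi l (-(t + p - q - r)) +
          Psi l (-(t - p + q + r))) + (1 + t * p) * Psi l (-(t + p - q - r)) := by linarith
    _ = _ := by ring

theorem T3_bound {t p q r F : ℝ} {l : List ℝ} (hc : Crit t p (q :: r :: l))
    (hsq : sq (p :: q :: r :: l) = 1) (hr : 0 < r) (hrq : r ≤ q) (hqp : q ≤ p) (hpq : p + q ≤ t)
    (h1 : t * p ≤ 1) (h3 : 1 ≤ 3 * (t * p)) (hB : Beats t p q r F) :
    T (p :: q :: r :: l) t < F := by
  have hq : 0 < q := lt_of_lt_of_le hr hrq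
  have hp : 0 < p := lt_of_lt_of_le hq hqp
  have hv : sq l / 3 = vv p q r := by
    unfold sq at hsq
    simp only [List.map_cons, List.sum_cons] at hsq
    unfold vv sq
    linarith
  have hM := T3_master hc hr hrq hqp hpq h1
  have hβ : 0 < t + p - q - r := by linarith
  have hγ : 0 < t - p + q + r := by linarith
  have kβ := Psi_neg_le l hβ
  have kγ := Psi_neg_le l hγ
  rw [hv] at kβ kγ
  have nβ := Psi_nonneg l (-(t + p - q - r))
  have hone : 0 ≤ 1 - t * p := by linarith
  have kγ' := mul_le_mul_of_nonneg_left kγ hone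
  have h8 : 0 < 8 * (q * r) := by positivity
  suffices h : 8 * (q * r) * T (p :: q :: r :: l) t < 8 * (q * r) * F from
    lt_of_mul_lt_mul_left h h8.le
  rcases hB with hB | ⟨hal, k, hk, hB⟩ | ⟨hal, hB⟩
  · refine lt_of_le_of_lt ?_ hB
    have hadd := Psi_add l (p + q + r - t)
    rw [hv] at hadd
    have m5 : Psi l (-(t + p - q - r)) ≤ Psi l (-(p + q + r - t)) := Psi_mono l (by linarith)
    have hal : Psi l (p + q + r - t) ≤ (p + q + r - t) ^ 2 + vv p q r -
        Psi l (-(t + p - q - r)) := by linarith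
    have hal' := mul_le_mul_of_nonneg_left hal hone
    have hmax : (4 * (t * p) - 2) * Psi l (-(t + p - q - r)) ≤
        max (4 * (t * p) - 2) 0 * Kb (vv p q r) (t + p - q - r) := by
      refine le_trans (mul_le_mul_of_nonneg_right (le_max_left _ 0) nβ) ?_
      exact mul_le_mul_of_nonneg_left kβ (le_max_right _ _)
    unfold Gi
    nlinarith [hM, hal', kγ', hmax]
  · refine lt_of_le_of_lt ?_ hB
    have hP := Psi_le l hal hk
    rw [hv] at hP
    have hP' := mul_le_mul_of_nonneg_left hP hone
    have kβ' := mul_le_mul_of_nonneg_left kβ (show 0 ≤ 3 * (t * p) - 1 by linarith)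
    unfold Gii
    linarith
  · refine lt_of_le_of_lt ?_ hB
    have hP := Psi_nonpos_le l hal
    rw [hv] at hP
    have hP' := mul_le_mul_of_nonneg_left hP hone
    have kβ' := mul_le_mul_of_nonneg_left kβ (show 0 ≤ 3 * (t * p) - 1 by linarith)
    unfold Giii
    linarith

end Pool.Agent.Helper89.SP
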